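import Pool.Agent.Helper5.FS.Stmts

set_option autoImplicit false

open Finset Pool.Agent.Helper5.FS

namespace Pool.Agent.Helper76.FS

theorem st_CRS (h1 : ST_MG1) (h2 : ST_MG2) : ST_CRS := by
  intro n E
  have key : ∀ k : ℕ, ∀ P : Finset (Finset (Fin n)), P.card = k → Pt P → Ind E P →
      ∃ Q, Pt Q ∧ Ind E Q ∧ Rf P Q ∧ Cpl E Q := by
    intro k
    induction k with
    | zero =>
      intro P hk hP hI
      refine ⟨P, hP, hI, fun B hB => ⟨B, hB, subset_rfl⟩, ?_⟩
      intro A hA
      rw [Finset.card_eq_zero.1 hk] at hA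
      exact absurd hA (Finset.notMem_empty A)
    | succ k ih =>
      intro P hk hP hI
      by_cases hC : Cpl E P
      · exact ⟨P, hP, hI, fun B hB => ⟨B, hB, subset_rfl⟩, hC⟩
      · unfold Cpl at hC
        push Not at hC
        obtain ⟨A, hA, B, hB, hAB, hno⟩ := hC
        obtain ⟨h3, h4⟩ := h1 n P A B hP hA hB hAB
        have h5 : Ind E (mg P A B) := by
          intro D hD e he
          unfold mg at hD
          rcases Finset.mem_insert.1 hD with h | h
          · rw [h]
            exact hno e he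
          · exact hI D (Finset.mem_of_mem_erase (Finset.mem_of_mem_erase h)) e he
        obtain ⟨Q, hQ1, hQ2, hQ3, hQ4⟩ := ih (mg P A B) (by omega) h3 h5
        exact ⟨Q, hQ1, hQ2, h2.2.2.1 n P (mg P A B) Q (h2.2.1 n P A B) hQ3, hQ4⟩
  intro P hP hI
  exact key P.card P rfl hP hI

end Pool.Agent.Helper76.FS
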