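import Pool.Agent.Helper97.FS.Stmts

set_option autoImplicit false

namespace Pool.Agent.Helper97.FS

open Finset MeasureTheory Filter Topology
open scoped ComplexConjugate
open Pool.Agent.Helper97.Sub

variable {d : ℕ}

theorem ue2_prefix_iff (V : List (Fin d)) (i m : ℕ) (hi : i ≤ V.length) (q : Fin m → Fin d) :
    List.ofFn q <+: V.drop i ↔ i + m ≤ V.length ∧ (V.drop i).take m = List.ofFn q := by
  rw [List.prefix_iff_eq_take, List.length_ofFn]
  constructor
  · intro h
    refine ⟨?_, h.symm⟩
    have := congrArg List.length h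
    simp only [List.length_ofFn, List.length_take, List.length_drop] at this
    omega
  · rintro ⟨_, h⟩
    exact h.symm

/-- A sum over the positions of a word as a sum over the windows. -/
theorem ue2_sum {R : Type} [CommSemiring R] (V : List (Fin d)) (m : ℕ) (F : List (Fin d) → R) :
    ∑ i ∈ range V.length, (if i + m ≤ V.length then F ((V.drop i).take m) else 0) =
      ∑ q : Fin m → Fin d, (occ (List.ofFn q) V : R) * F (List.ofFn q) := by
  classical
  have h1 : ∀ q : Fin m → Fin d, (occ (List.ofFn q) V : R) * F (List.ofFn q) =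
      ∑ i ∈ range V.length, if List.ofFn q <+: V.drop i then F (List.ofFn q) else 0 := by
    intro q
    rw [← sum_filter, sum_const, nsmul_eq_mul, occ]
  rw [sum_congr rfl fun q _ => h1 q, sum_comm]
  refine sum_congr rfl fun i hi => ?_
  rw [mem_range] at hi
  by_cases h : i + m ≤ V.length
  · rw [if_pos h]
    have hl : ((V.drop i).take m).length = m := by
      simp only [List.length_take, List.length_drop]
      omega
    obtain ⟨q0, hq0⟩ : ∃ q0 : Fin m → Fin d, List.ofFn q0 = (V.drop i).take m := by
      refine ⟨fun j => ((V.drop i).take m)[(j : ℕ)]'(by rw [hl]; exact j.2), ?_⟩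
      apply List.ext_getElem
      · rw [List.length_ofFn, hl]
      · intro k h1 h2
        rw [List.getElem_ofFn]
    rw [sum_eq_single q0]
    · rw [if_pos ((ue2_prefix_iff V i m hi.le q0).2 ⟨h, hq0.symm⟩), hq0]
    · intro q _ hq
      rw [if_neg]
      intro h'
      apply hq
      apply List.ofFn_injective
      rw [hq0, ((ue2_prefix_iff V i m hi.le q).1 h').2]
    · intro h'
      exact absurd (mem_univ _) h'
  · rw [if_neg h, sum_eq_zero]
    intro q _
    rw [if_neg]
    intro h'
    exact h ((ue2_prefix_iff V i m hi.le q).1 h').1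

theorem ue2_ab_append (U V : List (Fin d)) : ab (U ++ V) = ab U + ab V := by
  funext a
  simp only [ab, List.count_append, Pi.add_apply]
  push_cast
  ring

theorem ue2_ab_sum (V : List (Fin d)) : ∑ a, ab V a = (V.length : ℤ) := by
  induction V with
  | nil => simp [ab]
  | cons c V ih =>
    rw [show c :: V = [c] ++ V from rfl, ue2_ab_append]
    simp only [Pi.add_apply, sum_add_distrib, ih, List.length_append, List.length_singleton]
    have : ∑ a, ab [c] a = 1 := by
      rw [sum_eq_single c]
      · simp [ab]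
      · intro b _ hb
        simp [ab, Ne.symm hb]
      · intro h
        exact absurd (mem_univ _) h
    rw [this]
    push_cast
    ring

/-- The condition on a window. -/
def ue2_P (c e : Fin d) (j : Fin d → ℤ) (n : ℕ) (W : List (Fin d)) : Prop :=
  W[0]? = some c ∧ W[n]? = some e ∧ ab (W.take n) = j

theorem ue2_card (V : List (Fin d)) (c e : Fin d) (j : Fin d → ℤ) (n : ℕ)
    (hn : ∑ a, j a = (n : ℤ)) [DecidablePred fun i : ℕ => i + (n + 1) ≤ V.length ∧
      ue2_P c e j n ((V.drop i).take (n + 1))] :
    cnt V c e j = #{i ∈ range V.length | i + (n + 1) ≤ V.length ∧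
      ue2_P c e j n ((V.drop i).take (n + 1))} := by
  unfold cnt
  have key : ∀ i, i + n ≤ V.length → ab (V.take (i + n)) - ab (V.take i) =
      ab ((V.drop i).take n) := by
    intro i hi
    have : V.take (i + n) = V.take i ++ (V.drop i).take n := by
      rw [List.take_add]
    rw [this, ue2_ab_append]
    ring
  apply card_nbij' (fun p => p.1) (fun i => (i, i + n))
  · rintro ⟨i, i'⟩ hp
    simp only [coe_filter, mem_product, mem_range, Set.mem_ofPred_eq] at hp ⊢
    obtain ⟨⟨hi, hi'⟩, h1, h2, h3⟩ := hp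
    have h4 : (i' : ℤ) - i = n := by
      rw [← hn, ← h3]
      simp only [Pi.sub_apply, sum_sub_distrib, ue2_ab_sum, List.length_take]
      rw [min_eq_left hi.le, min_eq_left hi'.le]
    have h5 : i' = i + n := by omega
    subst h5
    refine ⟨hi, by omega, ?_, ?_, ?_⟩
    · rw [List.getElem?_take_of_lt (by omega), List.getElem?_drop]
      simpa using h1
    · rw [List.getElem?_take_of_lt (by omega), List.getElem?_drop]
      exact h2
    · rw [List.take_take, min_eq_left (by omega), ← key i hi'.le]
      exact h3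
  · intro i hi
    simp only [coe_filter, mem_product, mem_range, Set.mem_ofPred_eq] at hi ⊢
    obtain ⟨hi, h0, h1, h2, h3⟩ := hi
    rw [List.getElem?_take_of_lt (by omega), List.getElem?_drop] at h1 h2
    rw [List.take_take, min_eq_left (by omega), ← key i (by omega)] at h3
    exact ⟨⟨hi, by omega⟩, by simpa using h1, h2, h3⟩
  · rintro ⟨i, i'⟩ hp
    simp only [coe_filter, mem_product, mem_range, Set.mem_ofPred_eq] at hp
    obtain ⟨⟨hi, hi'⟩, h1, h2, h3⟩ := hp
    have h4 : (i' : ℤ) - i = n := by
      rw [← hn, ← h3]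
      simp only [Pi.sub_apply, sum_sub_distrib, ue2_ab_sum, List.length_take]
      rw [min_eq_left hi.le, min_eq_left hi'.le]
    have h5 : i' = i + n := by omega
    subst h5
    rfl
  · intro i _
    rfl

open Classical in
theorem ue2_cnt (V : List (Fin d)) (c e : Fin d) (j : Fin d → ℤ) (n : ℕ)
    (hn : ∑ a, j a = (n : ℤ)) :
    (cnt V c e j : ℝ) = ∑ q : Fin (n + 1) → Fin d, (occ (List.ofFn q) V : ℝ) *
      (if ue2_P c e j n (List.ofFn q) then (1 : ℝ) else 0) := by
  rw [← ue2_sum V (n + 1) (fun W => if ue2_P c e j n W then (1 : ℝ) else 0),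
    ue2_card V c e j n hn, card_filter]
  push_cast
  refine sum_congr rfl fun i _ => ?_
  by_cases h1 : i + (n + 1) ≤ V.length
  · rw [if_pos h1]
    by_cases h2 : ue2_P c e j n ((V.drop i).take (n + 1))
    · rw [if_pos ⟨h1, h2⟩, if_pos h2]
    · rw [if_neg (fun h => h2 h.2), if_neg h2]
  · rw [if_neg (fun h => h1 h.1), if_neg h1]

theorem ue2_cnt_swap (V : List (Fin d)) (c e : Fin d) (j : Fin d → ℤ) :
    cnt V c e j = cnt V e c (-j) := by
  unfold cnt
  apply card_nbij' Prod.swap Prod.swap
  · rintro ⟨i, i'⟩ hp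
    simp only [coe_filter, mem_product, mem_range, Set.mem_ofPred_eq, Prod.swap] at hp ⊢
    obtain ⟨⟨hi, hi'⟩, h1, h2, h3⟩ := hp
    refine ⟨⟨hi', hi⟩, h2, h1, ?_⟩
    rw [← h3]
    ring
  · rintro ⟨i, i'⟩ hp
    simp only [coe_filter, mem_product, mem_range, Set.mem_ofPred_eq, Prod.swap] at hp ⊢
    obtain ⟨⟨hi, hi'⟩, h1, h2, h3⟩ := hp
    refine ⟨⟨hi', hi⟩, h2, h1, ?_⟩
    rw [← neg_neg j, ← h3]
    ring
  · intro p _
    exact Prod.swap_swap p
  · intro p _
    exact Prod.swap_swap p

theorem ue2_cor (G : List (Fin d) → ℂ) (w : ℕ) (V : List (Fin d)) (n : ℕ) :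
    cor G w V n = ∑ q : Fin (n + w) → Fin d, (occ (List.ofFn q) V : ℂ) *
      (G ((List.ofFn q).drop n) * conj (G ((List.ofFn q).take w))) := by
  rw [← ue2_sum V (n + w) (fun W => G (W.drop n) * conj (G (W.take w))), cor]
  refine sum_congr rfl fun i _ => ?_
  rw [← add_assoc]
  by_cases h : i + n + w ≤ V.length
  · rw [if_pos h, if_pos h]
    congr 3
    · rw [List.drop_take, List.drop_drop, Nat.add_sub_cancel_left]
    · rw [List.take_take, min_eq_left (by omega)]
  · rw [if_neg h, if_neg h]

theorem ue2_int (μ : Measure (ℤ → Fin d)) [IsProbabilityMeasure μ] (m : ℕ)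
    (F : List (Fin d) → ℂ) :
    ∫ x, F (win x 0 m) ∂μ = ∑ q : Fin m → Fin d,
      ((μ.real {x | win x 0 m = List.ofFn q} : ℝ) : ℂ) * F (List.ofFn q) := by
  have h1 : Measurable (fun x : ℤ → Fin d => fun j : Fin m => x (0 + ((j : ℕ) : ℤ))) :=
    measurable_pi_lambda _ fun j => measurable_pi_apply _
  have h2 : Measurable (fun q : Fin m → Fin d => F (List.ofFn q)) := measurable_of_finite _
  have h3 := integral_map (μ := μ) h1.aemeasurable (f := fun q : Fin m → Fin d =>
    F (List.ofFn q)) h2.aestronglyMeasurable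
  have h4 : ∫ x, F (win x 0 m) ∂μ = ∫ q, F (List.ofFn q) ∂(μ.map (fun x : ℤ → Fin d =>
      fun j : Fin m => x (0 + ((j : ℕ) : ℤ)))) := h3.symm
  have : IsProbabilityMeasure (μ.map (fun x : ℤ → Fin d =>
      fun j : Fin m => x (0 + ((j : ℕ) : ℤ)))) := Measure.isProbabilityMeasure_map h1.aemeasurable
  rw [h4, integral_fintype Integrable.of_finite]
  refine sum_congr rfl fun q _ => ?_
  rw [Complex.real_smul]
  congr 2
  rw [map_measureReal_apply h1 (measurableSet_singleton q)]
  congr 1
  ext x
  simp only [Set.mem_preimage, Set.mem_singleton_iff, Set.mem_ofPred_eq, win]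
  constructor
  · intro h
    rw [← h]
  · intro h
    exact List.ofFn_injective h

theorem st_UE2 : ST_UE2 := by
  intro d σ hlen μ hμ hsh hfr
  have hfr' : ∀ (m : ℕ) (q : Fin m → Fin d) (a : Fin d),
      Tendsto (fun N : ℕ => (occ (List.ofFn q) (T σ N a) : ℝ) / ((T σ N a).length : ℝ)) atTop
        (𝓝 (μ.real {x | win x 0 m = List.ofFn q})) := by
    intro m q a
    have := hfr (List.ofFn q) a
    simpa only [List.length_ofFn] using this
  constructor
  · have h1 : ∀ (c e : Fin d) (j : Fin d → ℤ), 0 ≤ ∑ a, j a → ∃ g : ℝ, ∀ a,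
        Tendsto (fun N : ℕ => (cnt (T σ N a) c e j : ℝ) / ((T σ N a).length : ℝ)) atTop
          (𝓝 g) := by
      intro c e j hj
      classical
      obtain ⟨n, hn⟩ := Int.eq_ofNat_of_zero_le hj
      refine ⟨∑ q : Fin (n + 1) → Fin d, μ.real {x | win x 0 (n + 1) = List.ofFn q} *
        (if ue2_P c e j n (List.ofFn q) then (1 : ℝ) else 0), fun a => ?_⟩
      have h2 : (fun N : ℕ => (cnt (T σ N a) c e j : ℝ) / ((T σ N a).length : ℝ)) =
          fun N : ℕ => ∑ q : Fin (n + 1) → Fin d,
            (occ (List.ofFn q) (T σ N a) : ℝ) / ((T σ N a).length : ℝ) *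
              (if ue2_P c e j n (List.ofFn q) then (1 : ℝ) else 0) := by
        funext N
        rw [ue2_cnt (T σ N a) c e j n hn, sum_div]
        refine sum_congr rfl fun q _ => ?_
        rw [div_mul_eq_mul_div]
      rw [h2]
      exact tendsto_finsetSum _ fun q _ => (hfr' (n + 1) q a).mul_const _
    have h2 : ∀ (c e : Fin d) (j : Fin d → ℤ), ∃ g : ℝ, ∀ a,
        Tendsto (fun N : ℕ => (cnt (T σ N a) c e j : ℝ) / ((T σ N a).length : ℝ)) atTop
          (𝓝 g) := by
      intro c e j
      rcases le_total 0 (∑ a, j a) with hj | hj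
      · exact h1 c e j hj
      · obtain ⟨g, hg⟩ := h1 e c (-j) (by simpa using hj)
        refine ⟨g, fun a => ?_⟩
        have := hg a
        simpa only [← ue2_cnt_swap] using this
    choose gam hgam using h2
    exact ⟨gam, fun a c e j => hgam c e j a⟩
  · intro G w ν hν
    refine ⟨hν.1, fun a n => ?_⟩
    rw [hν.2 n]
    have h3 : ∀ x : ℤ → Fin d, (fun x => G (List.ofFn (fun j : Fin w => x ((j : ℕ) : ℤ))))
        (sh^[n] x) * conj ((fun x => G (List.ofFn (fun j : Fin w => x ((j : ℕ) : ℤ)))) x) =
        (fun W : List (Fin d) => G (W.drop n) * conj (G (W.take w))) (win x 0 (n + w)) := by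
      intro x
      have e1 : (win x 0 (n + w)).drop n = win x n w := by
        have := win_drop_take x 0 (n + w) n w le_rfl
        rw [zero_add] at this
        rw [← this]
        rw [List.take_of_length_le]
        rw [List.length_drop, win_length]
        omega
      have e2 : (win x 0 (n + w)).take w = win x 0 w := by
        have := win_drop_take x 0 (n + w) 0 w (by omega)
        simpa using this
      simp only [e1, e2]
      rw [ofFn_sh]
      simp only [win, zero_add]
    rw [integral_congr_ae (Eventually.of_forall h3),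
      ue2_int μ (n + w) (fun W : List (Fin d) => G (W.drop n) * conj (G (W.take w)))]
    have h4 : (fun N : ℕ => cor G w (T σ N a) n / (((T σ N a).length : ℕ) : ℂ)) =
        fun N : ℕ => ∑ q : Fin (n + w) → Fin d,
          (((occ (List.ofFn q) (T σ N a) : ℝ) / ((T σ N a).length : ℝ) : ℝ) : ℂ) *
            (G ((List.ofFn q).drop n) * conj (G ((List.ofFn q).take w))) := by
      funext N
      rw [ue2_cor, sum_div]
      refine sum_congr rfl fun q _ => ?_
      push_cast
      rw [div_mul_eq_mul_div]
    rw [h4]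
    refine tendsto_finsetSum _ fun q _ => Tendsto.mul_const _ ?_
    exact (Complex.continuous_ofReal.tendsto _).comp (hfr' (n + w) q a)

end Pool.Agent.Helper97.FS
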